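import Pool.Agent.Helper32.B4.St

/-!
# Project B4, module UP: the upper bound for FF
-/

set_option autoImplicit false

open MeasureTheory

namespace Pool.Agent.Helper4.B4

open Pool.Agent.Helper32.B4 Pool.Agent.Helper32.DX Pool.Agent.Helper64.C3

/-- the inequality between real numbers -/
theorem up_real (D Y Z T A N S M U W V J I L K W2 B q Q F : ℝ)
    (hF : F = 20 * D - 24 * D ^ 2 + 8 * D ^ 3 + 16 * Z * D + 24 * (1 - D) * Y ^ 2
      - 16 * Y * T - q - 8 * A + 8 * W - 8 * V)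
    (hQ : Q = 10 * S - q + 24 * Y ^ 2 - 16 * Y * L - 8 * K)
    (a1 : 2 * D = S + N) (a2 : Z = 2 * M - U) (a3 : T = L - J) (a4 : V = K - I)
    (a5 : 0 ≤ D) (a6 : D ≤ 2) (a7 : 0 ≤ N) (a9 : 0 ≤ A) (a11 : 0 ≤ U)
    (b1 : D ^ 2 ≤ N) (b2 : 2 * M ^ 2 ≤ U) (b3 : J ^ 2 ≤ A * D)
    (b6 : 37 * M - 21 * D ≤ 6.08 * Real.sqrt N)
    (c1 : W ≤ W2) (c2 : W2 ≤ D * M) (c3 : I ^ 2 ≤ A * B) (c4 : B ≤ D ^ 2 - W2) (c5 : 0 ≤ B) :
    F ≤ Q + 19.9 * N := by
  have i1 : 16 * Y * J ≤ 24 * D * Y ^ 2 + 8 / 3 * A := by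
    rcases eq_or_lt_of_le a5 with h | h
    · rw [← h] at b3 ⊢
      have hJ : J = 0 := by
        have : J ^ 2 ≤ 0 := by linarith
        exact pow_eq_zero_iff (two_ne_zero) |>.1 (le_antisymm this (sq_nonneg J))
      rw [hJ]
      linarith
    · have h1 : 0 ≤ D * (24 * D * Y ^ 2 + 8 / 3 * A - 16 * Y * J) := by
        nlinarith [sq_nonneg (3 * D * Y - J)]
      have h2 := nonneg_of_mul_nonneg_right h1 h
      linarith
  have i2 : 8 * I ≤ 16 / 3 * A + 3 * B := by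
    by_contra h
    push Not at h
    have h0 : 0 ≤ 16 / 3 * A + 3 * B := by linarith
    have h1 : (16 / 3 * A + 3 * B) ^ 2 < (8 * I) ^ 2 := pow_lt_pow_left₀ h h0 two_ne_zero
    nlinarith [sq_nonneg (16 / 3 * A - 3 * B)]
  set r := Real.sqrt N with hr
  have hr0 : 0 ≤ r := Real.sqrt_nonneg N
  have hr2 : r ^ 2 = N := Real.sq_sqrt a7
  have hDr : D ≤ r := Real.le_sqrt_of_sq_le b1
  have hG : -21 * D ^ 2 + 8 * D ^ 3 + 37 * D * M - 16 * U * D ≤ 9.9 * N := by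
    rcases le_total D 0.45 with hD | hD
    · have e1 : D * (37 * M - 21 * D) ≤ 6.08 * N := by
        calc D * (37 * M - 21 * D) ≤ D * (6.08 * r) := mul_le_mul_of_nonneg_left b6 a5
          _ ≤ r * (6.08 * r) := mul_le_mul_of_nonneg_right hDr (by positivity)
          _ = 6.08 * N := by rw [← hr2]; ring
      have e2 : 8 * D ^ 3 ≤ 3.6 * N := by
        have : D ^ 3 ≤ 0.45 * D ^ 2 := by
          have := mul_le_mul_of_nonneg_right hD (sq_nonneg D)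
          nlinarith
        nlinarith
      have e3 : 0 ≤ U * D := mul_nonneg a11 a5
      nlinarith
    · have e1 : 37 * M - 32 * M ^ 2 ≤ 10.7 := by nlinarith [sq_nonneg (M - 37 / 64)]
      have e2 : -30.9 * D + 8 * D ^ 2 + 10.7 ≤ 0 := by
        nlinarith [mul_nonneg (sub_nonneg.2 hD) (sub_nonneg.2 a6)]
      have e3 : D * (-30.9 * D + 8 * D ^ 2 + 37 * M - 32 * M ^ 2) ≤ 0 :=
        mul_nonpos_of_nonneg_of_nonpos a5 (by linarith)
      have e4 : 32 * M ^ 2 * D ≤ 16 * U * D := by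
        have := mul_le_mul_of_nonneg_right b2 a5
        linarith
      nlinarith
  have hZ : 16 * Z * D = 32 * M * D - 16 * U * D := by rw [a2]; ring
  have hYT : 16 * Y * T = 16 * Y * L - 16 * Y * J := by rw [a3]; ring
  nlinarith

/-- the theorem StUP -/
theorem hUP : StIA → StIB → StIC → StQI → StUP := by
  intro hA hB hC hQ θ hθ
  obtain ⟨a1, a2, a3, a4, a5, a6, a7, a8, a9, a10, a11, a12, a13, a14, a15⟩ := hA θ hθ
  obtain ⟨b1, b2, b3, b4, b5, b6⟩ := hB θ hθ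
  obtain ⟨c1, c2, c3, c4, c5, c6⟩ := hC θ hθ
  have hq := hQ (sn θ) (meas_sn hθ) ⟨1, fun u => abs_sn_le θ u⟩
  have hq' : Qf (sn θ) = 10 * fS θ - fq θ + 24 * fY θ ^ 2 - 16 * fY θ * fL θ - 8 * fK θ := hq
  exact up_real (fD θ) (fY θ) (fZ θ) (fT θ) (fA θ) (fN θ) (fS θ) (fM θ) (fU θ) (fW θ) (fV θ)
    (fJ θ) (fI θ) (fL θ) (fK θ) (fW2 θ) (fB θ) (fq θ) (Qf (sn θ)) (FF θ) rfl hq' a1 a2 a3 a4 a5 a6
    a7 a9 a11 b1 b2 b3 b6 c1 c2 c3 c4 c5

end Pool.Agent.Helper4.B4
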